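import Pool.Agent.W626.FR.Stms

/-!
# FR-SPLIT: splitting of a configuration at the root
-/

set_option autoImplicit false

namespace Pool.Agent.W230.FR

open MeasureTheory ProbabilityTheory Filter FrogGW FrogRec
open scoped ENNReal NNReal Classical Topology

section

variable {κ₁ κ₂ ι α : Type} [MeasurableSpace α]

/-- join two families -/
def join (p : (κ₁ → α) × (κ₂ → α)) : κ₁ ⊕ κ₂ → α := Sum.elim p.1 p.2

lemma measurable_join : Measurable (join (κ₁ := κ₁) (κ₂ := κ₂) (α := α)) := by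
  rw [measurable_pi_iff]
  rintro (k | k)
  · exact (measurable_pi_apply k).comp measurable_fst
  · exact (measurable_pi_apply k).comp measurable_snd

lemma map_join (μ : κ₁ ⊕ κ₂ → Measure α) [∀ k, IsProbabilityMeasure (μ k)] :
    ((Measure.infinitePi fun k => μ (Sum.inl k)).prod
      (Measure.infinitePi fun k => μ (Sum.inr k))).map join = Measure.infinitePi μ := by
  apply Measure.eq_infinitePi
  intro s t ht
  rw [Measure.map_apply measurable_join (.pi s.countable_toSet fun _ _ => ht _)]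
  have h1 : (join ⁻¹' (Set.pi s t) : Set ((κ₁ → α) × (κ₂ → α))) =
      (Set.pi s.toLeft fun k => t (Sum.inl k)) ×ˢ (Set.pi s.toRight fun k => t (Sum.inr k)) := by
    ext p
    constructor
    · intro h
      constructor
      · intro k hk
        exact h (Sum.inl k) (by simpa using hk)
      · intro k hk
        exact h (Sum.inr k) (by simpa using hk)
    · rintro ⟨h2, h3⟩ o ho
      rcases o with k | k
      · exact h2 k (by simpa using ho)
      · exact h3 k (by simpa using ho)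
  rw [h1, Measure.prod_prod, Measure.infinitePi_pi _ (fun k _ => ht _),
    Measure.infinitePi_pi _ (fun k _ => ht _)]
  conv_rhs => rw [← Finset.toLeft_disjSum_toRight (u := s)]
  rw [Finset.prod_disjSum]

/-- split a family -/
lemma mp_split (μ : ι → Measure α) [∀ k, IsProbabilityMeasure (μ k)] (f : κ₁ ⊕ κ₂ → ι)
    (hf : Function.Injective f) :
    MeasurePreserving (fun ω : ι → α =>
        ((fun k : κ₁ => ω (f (Sum.inl k))), (fun k : κ₂ => ω (f (Sum.inr k)))))
      (Measure.infinitePi μ) ((Measure.infinitePi fun k => μ (f (Sum.inl k))).prod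
        (Measure.infinitePi fun k => μ (f (Sum.inr k)))) := by
  have hm : Measurable (fun ω : ι → α =>
      ((fun k : κ₁ => ω (f (Sum.inl k))), (fun k : κ₂ => ω (f (Sum.inr k))))) := by
    fun_prop
  refine ⟨hm, ?_⟩
  have h1 := Measure.map_infinitePi_infinitePi_of_inj (P := μ) hf
  have hg : Measurable (fun ω : κ₁ ⊕ κ₂ → α =>
      ((fun k : κ₁ => ω (Sum.inl k)), (fun k : κ₂ => ω (Sum.inr k)))) := by
    fun_prop
  have h2 : (fun ω : ι → α =>
      ((fun k : κ₁ => ω (f (Sum.inl k))), (fun k : κ₂ => ω (f (Sum.inr k))))) =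
      (fun ω : κ₁ ⊕ κ₂ → α =>
      ((fun k : κ₁ => ω (Sum.inl k)), (fun k : κ₂ => ω (Sum.inr k)))) ∘
      (fun ω i => ω (f i)) := rfl
  rw [h2, ← Measure.map_map hg (by fun_prop), h1, ← map_join (fun k => μ (f k)),
    Measure.map_map hg measurable_join]
  exact Measure.map_id

end

lemma suf_iff (i : ℕ) (t x : List ℕ) : t ++ [i] <:+ x ++ [i] ↔ t <:+ x := by
  constructor
  · rintro ⟨p, hp⟩
    rw [← List.append_assoc] at hp
    exact ⟨p, (List.append_inj' hp rfl).1⟩
  · rintro ⟨p, rfl⟩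
    exact ⟨p, by rw [List.append_assoc]⟩

lemma bet_shift (hA : TaskAlg) (n : ℕ) (Z : Env) (i : ℕ) (hi : i < Z []) (x t z : List ℕ) :
    bet (n + 1) Z (x ++ [i]) (t ++ [i]) (z ++ [i]) = bet n (sh i Z) x t z := by
  obtain ⟨h1, -, h3, -⟩ := hA
  unfold FrogRec.bet
  simp only [(h1 n Z i x).1, (h1 n Z i z).2, suf_iff, (h3 n Z i t x).2.1, (h3 n Z i t z).2.2.1,
    hi, true_and]

/-- FR-SPLIT -/
theorem split (hA : TaskAlg) : TaskSplit := by
  intro mu n Z
  have h1 := mp_split (κ₁ := Fin (Z []) × Ix) (κ₂ := List ℕ × List ℕ)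
    (fun i : Ix => bern (mu * bet (n + 1) Z i.1 i.2.1 i.2.2))
    (Sum.elim (fun q => (q.2.1 ++ [(q.1 : ℕ)], q.2.2.1 ++ [(q.1 : ℕ)], q.2.2.2 ++ [(q.1 : ℕ)]))
      (fun q => (q.1, [], q.2))) (by
      rintro (⟨i, x, t, z⟩ | ⟨x, z⟩) (⟨j, x', t', z'⟩ | ⟨x', z'⟩) h
      · simp only [Sum.elim_inl, Prod.mk.injEq] at h
        obtain ⟨h1, h2, h3⟩ := h
        obtain ⟨h4, h5⟩ := List.append_inj' h1 rfl
        obtain ⟨h6, -⟩ := List.append_inj' h2 rfl
        obtain ⟨h7, -⟩ := List.append_inj' h3 rfl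
        have h8 : (i : ℕ) = j := by simpa using h5
        rw [h4, h6, h7, Fin.ext h8]
      · simp at h
      · simp at h
      · simp only [Sum.elim_inr, Prod.mk.injEq, true_and] at h
        rw [h.1, h.2])
  have h2 : MeasurePreserving (fun (Y : Fin (Z []) × Ix → Bool) (i : Fin (Z [])) (v : Ix) => Y (i, v))
      (Measure.infinitePi fun q : Fin (Z []) × Ix =>
        bern (mu * bet n (sh (q.1 : ℕ) Z) q.2.1 q.2.2.1 q.2.2.2))
      (Measure.pi fun i : Fin (Z []) => PB mu n (sh i Z)) := by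
    refine ⟨by fun_prop, ?_⟩
    have h3 := Measure.infinitePi_map_curry (fun (i : Fin (Z [])) (v : Ix) =>
      bern (mu * bet n (sh (i : ℕ) Z) v.1 v.2.1 v.2.2))
    rw [← Measure.infinitePi_eq_pi]
    exact h3
  have i1 : IsProbabilityMeasure (Measure.infinitePi fun q : Fin (Z []) × Ix =>
      bern (mu * bet n (sh (q.1 : ℕ) Z) q.2.1 q.2.2.1 q.2.2.2)) := inferInstance
  have i2 : IsProbabilityMeasure (Measure.pi fun i : Fin (Z []) => PB mu n (sh i Z)) :=
    inferInstance
  have h3 := h2.prod (MeasurePreserving.id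
    (Measure.infinitePi fun q : List ℕ × List ℕ => bern (mu * bet (n + 1) Z q.1 [] q.2)))
  have h4 : (fun k : Fin (Z []) × Ix => bern (mu * bet (n + 1) Z
      (k.2.1 ++ [(k.1 : ℕ)]) (k.2.2.1 ++ [(k.1 : ℕ)]) (k.2.2.2 ++ [(k.1 : ℕ)]))) =
      fun q : Fin (Z []) × Ix => bern (mu * bet n (sh (q.1 : ℕ) Z) q.2.1 q.2.2.1 q.2.2.2) := by
    funext q
    rw [bet_shift hA n Z q.1 q.1.2]
  simp only [Sum.elim_inl, Sum.elim_inr] at h1
  simp only [h4] at h1
  exact h3.comp h1

end Pool.Agent.W230.FR
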